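import Pool.Agent.E8helper22.SZ.Stm

/-!
# SZ: the probabilistic selection (S_COMB)
-/

set_option autoImplicit false

namespace Pool.Agent.E8helper76.SZ

open Finset

lemma sum_weight (S A : Finset ℕ) (hA : A ⊆ S) (t : ℝ) :
    ∑ b ∈ S, (if b ∈ A then t else 1) = S.card + (t - 1) * A.card := by
  have h1 : ∀ b ∈ S, (if b ∈ A then t else (1 : ℝ)) = 1 + (if b ∈ A then (t - 1) else 0) := by
    intro b _
    split_ifs <;> ring
  rw [Finset.sum_congr rfl h1, Finset.sum_add_distrib, ← Finset.sum_filter,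
    Finset.filter_mem_eq_inter, Finset.inter_eq_right.mpr hA]
  simp
  ring

lemma prod_weight (k : ℕ) (A : Finset ℕ) (t : ℝ) (f : Fin k → ℕ) :
    ∏ i, (if f i ∈ A then t else 1) = t ^ (univ.filter (fun i => f i ∈ A)).card := by
  rw [Finset.prod_ite]
  simp

lemma markov (S A : Finset ℕ) (hA : A ⊆ S) (k : ℕ) (t : ℝ) (ht : 1 ≤ t)
    (h : (S.card : ℝ) + (t - 1) * A.card ≤ 2 * S.card) (c : ℝ) :
    (((Fintype.piFinset (fun _ : Fin k => S)).filter
      (fun f => c ≤ ((univ.filter (fun i => f i ∈ A)).card : ℝ))).card : ℝ) * t ^ c ≤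
      (2 * (S.card : ℝ)) ^ k := by
  have ht0 : 0 < t := by linarith
  have h1 : ∑ f ∈ Fintype.piFinset (fun _ : Fin k => S), ∏ i, (if f i ∈ A then t else 1) =
      ((S.card : ℝ) + (t - 1) * A.card) ^ k := by
    have := Finset.prod_univ_sum (fun _ : Fin k => S) (fun _ b => if b ∈ A then t else (1 : ℝ))
    rw [← this]
    simp only [sum_weight S A hA t]
    simp
  calc (((Fintype.piFinset (fun _ : Fin k => S)).filter
      (fun f => c ≤ ((univ.filter (fun i => f i ∈ A)).card : ℝ))).card : ℝ) * t ^ c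
      = ∑ f ∈ ((Fintype.piFinset (fun _ : Fin k => S)).filter
      (fun f => c ≤ ((univ.filter (fun i => f i ∈ A)).card : ℝ))), t ^ c := by
        rw [Finset.sum_const, nsmul_eq_mul]
    _ ≤ ∑ f ∈ ((Fintype.piFinset (fun _ : Fin k => S)).filter
      (fun f => c ≤ ((univ.filter (fun i => f i ∈ A)).card : ℝ))),
        ∏ i, (if f i ∈ A then t else 1) := by
        refine Finset.sum_le_sum fun f hf => ?_
        rw [Finset.mem_filter] at hf
        rw [prod_weight, ← Real.rpow_natCast]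
        exact Real.rpow_le_rpow_of_exponent_le ht hf.2
    _ ≤ ∑ f ∈ Fintype.piFinset (fun _ : Fin k => S), ∏ i, (if f i ∈ A then t else 1) := by
        refine Finset.sum_le_sum_of_subset_of_nonneg (Finset.filter_subset _ _) fun f _ _ => ?_
        rw [prod_weight]
        positivity
    _ = ((S.card : ℝ) + (t - 1) * A.card) ^ k := h1
    _ ≤ (2 * (S.card : ℝ)) ^ k := by
        refine pow_le_pow_left₀ ?_ h k
        have : 0 ≤ (t - 1) * A.card := mul_nonneg (by linarith) (Nat.cast_nonneg _)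
        positivity

theorem t_COMB : Pool.Agent.E8helper22.SZ.S_COMB := by
  intro S J N k E G η hS hη hη1 hE hG hlt
  classical
  have hM : 0 < (S.card : ℝ) := by exact_mod_cast hS.card_pos
  set P := Fintype.piFinset (fun _ : Fin k => S) with hP
  have hPc : (P.card : ℝ) = (S.card : ℝ) ^ k := by
    rw [hP, Fintype.card_piFinset]
    simp
  set BE : ℕ → Finset (Fin k → ℕ) := fun j => P.filter
      (fun f => (3 * (k : ℝ) / 4) ≤ ((univ.filter (fun i => f i ∈ E j)).card : ℝ)) with hBE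
  set BG : ℕ → Finset (Fin k → ℕ) := fun n => P.filter
      (fun f => ((k : ℝ) / 4) ≤ ((univ.filter (fun i => f i ∈ G n)).card : ℝ)) with hBG
  have h3 : (0 : ℝ) < (3 : ℝ) ^ (3 * (k : ℝ) / 4) := Real.rpow_pos_of_pos (by norm_num) _
  have hbe : ∀ j ∈ J, ((BE j).card : ℝ) ≤ (S.card : ℝ) ^ k * (2 ^ k / (3 : ℝ) ^ (3 * (k : ℝ) / 4)) := by
    intro j hj
    have h1 := markov S (E j) (hE j hj).1 k 3 (by norm_num) (by
      have h2 : (2 : ℝ) * (E j).card ≤ S.card := by exact_mod_cast (hE j hj).2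
      linarith) (3 * (k : ℝ) / 4)
    rw [mul_pow] at h1
    have : ((BE j).card : ℝ) ≤ (2 ^ k * (S.card : ℝ) ^ k) / (3 : ℝ) ^ (3 * (k : ℝ) / 4) := by
      rw [le_div_iff₀ h3]
      exact h1
    calc ((BE j).card : ℝ) ≤ (2 ^ k * (S.card : ℝ) ^ k) / (3 : ℝ) ^ (3 * (k : ℝ) / 4) := this
      _ = _ := by ring
  have hbg : ∀ n ∈ N, ((BG n).card : ℝ) ≤ (S.card : ℝ) ^ k * (2 ^ k * η ^ ((k : ℝ) / 4)) := by
    intro n hn
    have hinv : 1 ≤ η⁻¹ := (one_le_inv₀ hη).mpr hη1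
    have h1 := markov S (G n) (hG n hn).1 k η⁻¹ hinv (by
      have h2 := (hG n hn).2
      have h4 : η⁻¹ * (G n).card ≤ S.card := by
        rw [inv_mul_le_iff₀ hη]
        exact h2
      have h5 : (0 : ℝ) ≤ (G n).card := Nat.cast_nonneg _
      nlinarith) ((k : ℝ) / 4)
    rw [Real.inv_rpow hη.le, mul_pow] at h1
    have hpos : 0 < η ^ ((k : ℝ) / 4) := Real.rpow_pos_of_pos hη _
    rw [← div_eq_mul_inv, div_le_iff₀ hpos] at h1
    calc ((BG n).card : ℝ) ≤ _ := h1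
      _ = _ := by ring
  by_contra hno
  push Not at hno
  have hcov : P ⊆ J.biUnion BE ∪ N.biUnion BG := by
    intro f hf
    rw [Finset.mem_union, Finset.mem_biUnion, Finset.mem_biUnion]
    by_contra hcon
    push Not at hcon
    obtain ⟨n, hn, hn2⟩ := hno f (fun i => Fintype.mem_piFinset.mp hf i) (fun j hj => by
      by_contra h6
      push Not at h6
      exact hcon.1 j hj (Finset.mem_filter.mpr ⟨hf, h6⟩))
    exact hcon.2 n hn (Finset.mem_filter.mpr ⟨hf, hn2⟩)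
  have hc1 : (P.card : ℝ) ≤ ∑ j ∈ J, ((BE j).card : ℝ) + ∑ n ∈ N, ((BG n).card : ℝ) := by
    have h7 : P.card ≤ ∑ j ∈ J, (BE j).card + ∑ n ∈ N, (BG n).card :=
      (Finset.card_le_card hcov).trans ((Finset.card_union_le _ _).trans
        (add_le_add Finset.card_biUnion_le Finset.card_biUnion_le))
    exact_mod_cast h7
  have hc2 : ∑ j ∈ J, ((BE j).card : ℝ) ≤ J.card *
      ((S.card : ℝ) ^ k * (2 ^ k / (3 : ℝ) ^ (3 * (k : ℝ) / 4))) := by
    rw [← nsmul_eq_mul]
    exact Finset.sum_le_card_nsmul _ _ _ hbe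
  have hc3 : ∑ n ∈ N, ((BG n).card : ℝ) ≤ N.card *
      ((S.card : ℝ) ^ k * (2 ^ k * η ^ ((k : ℝ) / 4))) := by
    rw [← nsmul_eq_mul]
    exact Finset.sum_le_card_nsmul _ _ _ hbg
  have hMk : 0 < (S.card : ℝ) ^ k := by positivity
  have : (S.card : ℝ) ^ k ≤ (S.card : ℝ) ^ k *
      ((J.card : ℝ) * (2 ^ k / (3 : ℝ) ^ (3 * (k : ℝ) / 4)) + N.card * (2 ^ k * η ^ ((k : ℝ) / 4))) := by
    rw [hPc] at hc1
    nlinarith [hc1, hc2, hc3]
  have : 1 ≤ (J.card : ℝ) * (2 ^ k / (3 : ℝ) ^ (3 * (k : ℝ) / 4)) +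
      N.card * (2 ^ k * η ^ ((k : ℝ) / 4)) := by
    by_contra h8
    push Not at h8
    nlinarith
  linarith

end Pool.Agent.E8helper76.SZ
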